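import Mathlib

set_option autoImplicit false

open scoped InnerProductSpace Topology NNReal
open Filter

namespace Pool.Agent.H768R2.FD

universe u v w

section vN

variable {K : Type u} [NormedAddCommGroup K] [InnerProductSpace ℂ K] [CompleteSpace K]

/-- The von Neumann algebra `W*(S)` generated by a set of operators: the bicommutant of `S ∪ S*`. -/
noncomputable def vnGen (S : Set (K →L[ℂ] K)) : VonNeumannAlgebra K where
  toStarSubalgebra := StarSubalgebra.centralizer ℂ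
    (StarSubalgebra.centralizer ℂ S : Set (K →L[ℂ] K))
  centralizer_centralizer' := by
    show Set.centralizer (Set.centralizer ((StarSubalgebra.centralizer ℂ
      (StarSubalgebra.centralizer ℂ S : Set (K →L[ℂ] K)) : StarSubalgebra ℂ (K →L[ℂ] K)) :
        Set (K →L[ℂ] K))) = ((StarSubalgebra.centralizer ℂ
      (StarSubalgebra.centralizer ℂ S : Set (K →L[ℂ] K)) : StarSubalgebra ℂ (K →L[ℂ] K)) :
        Set (K →L[ℂ] K))
    rw [StarSubalgebra.coe_centralizer_centralizer, Set.centralizer_centralizer_centralizer]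

/-- `τ` is a faithful normal tracial state on the von Neumann algebra `M` (its values outside `M`
play no role). Normality: on `M`, `τ` is a countable sum of vector functionals. -/
structure IsTraceState (M : VonNeumannAlgebra K) (τ : (K →L[ℂ] K) → ℂ) : Prop where
  one : τ 1 = 1
  tracial : ∀ a ∈ M, ∀ b ∈ M, τ (a * b) = τ (b * a)
  faithful : ∀ a ∈ M, τ (star a * a) = 0 → a = 0
  normal : ∃ ξ : ℕ → K, Summable (fun k => ‖ξ k‖ ^ 2) ∧ ∀ a ∈ M, τ a = ∑' k, ⟪ξ k, a (ξ k)⟫_ℂ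

/-- The monomial `x_{w₁} x_{w₂} ⋯ x_{w_n}`. -/
noncomputable def mono {m : ℕ} (x : Fin m → (K →L[ℂ] K)) (w : List (Fin m)) : K →L[ℂ] K :=
  (w.map x).prod

variable {E : Type v} [NormedAddCommGroup E] [InnerProductSpace ℂ E]
variable {F : Type w} [NormedAddCommGroup F] [InnerProductSpace ℂ F]

/-- The Hilbert space `E` is `L²(N, τ)`, with `Λ a ∈ E` the vector given by `a ∈ N`: `Λ` is linear on
`N`, `⟪Λ a, Λ b⟫ = τ(a* b)`, and the vectors `Λ a` are dense (the values of `Λ` outside `N` play no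
role). -/
structure IsL2 (N : VonNeumannAlgebra K) (τ : (K →L[ℂ] K) → ℂ) (Λ : (K →L[ℂ] K) → E) : Prop where
  add : ∀ a ∈ N, ∀ b ∈ N, Λ (a + b) = Λ a + Λ b
  smul : ∀ c : ℂ, ∀ a ∈ N, Λ (c • a) = c • Λ a
  inner : ∀ a ∈ N, ∀ b ∈ N, ⟪Λ a, Λ b⟫_ℂ = τ (star a * b)
  dense : ∀ ξ : E, ∀ ε : ℝ, 0 < ε → ∃ a ∈ N, ‖ξ - Λ a‖ < ε

/-- The Hilbert space `F` is the Hilbert space tensor product `E ⊗ E`, with `t ξ η ∈ F` the
elementary tensor `ξ ⊗ η`. -/
structure IsTensorSquare (t : E → E → F) : Prop where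
  add_left : ∀ ξ ξ' η, t (ξ + ξ') η = t ξ η + t ξ' η
  add_right : ∀ ξ η η', t ξ (η + η') = t ξ η + t ξ η'
  smul_left : ∀ (c : ℂ) ξ η, t (c • ξ) η = c • t ξ η
  smul_right : ∀ (c : ℂ) ξ η, t ξ (c • η) = c • t ξ η
  inner : ∀ ξ η ξ' η', ⟪t ξ η, t ξ' η'⟫_ℂ = ⟪ξ, ξ'⟫_ℂ * ⟪η, η'⟫_ℂ
  dense : (Submodule.span ℂ {z | ∃ ξ η, z = t ξ η}).topologicalClosure = ⊤

variable (Λ : (K →L[ℂ] K) → E) (t : E → E → F) {m : ℕ} (x : Fin m → (K →L[ℂ] K))

/-- The free difference quotient `∂_i` of the monomial `x_{w₁} ⋯ x_{w_n}`: the sum of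
`x_{w₁} ⋯ x_{w_{k-1}} ⊗ x_{w_{k+1}} ⋯ x_{w_n}` over all positions `k` with `w_k = i`. -/
noncomputable def fdq (i : Fin m) (w : List (Fin m)) : F :=
  ∑ k ∈ Finset.range w.length, if w[k]? = some i then
    t (Λ (mono x (w.take k))) (Λ (mono x (w.drop (k + 1)))) else 0

/-- The graph of the free difference quotient `∂_i : ℂ⟨x₁, …, x_m⟩ → L²(N) ⊗ L²(N)`. -/
noncomputable def fdqGraph (i : Fin m) : Submodule ℂ (E × F) :=
  Submodule.span ℂ (Set.range fun w => (Λ (mono x w), fdq Λ t x i w))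

/-- `(x₁, …, x_m)` has finite free Fisher information: for every `i` the vector `1 ⊗ 1` lies in the
domain of `∂_i*`, that is, there is a conjugate variable `J_i = ∂_i*(1 ⊗ 1)`. -/
def FiniteFisher : Prop :=
  ∀ i, ∃ J : E, (t (Λ 1) (Λ 1), J) ∈ (fdqGraph Λ t x i).adjoint

/-- The graph of the operator `(∂₁, …, ∂_m) : ℂ⟨x₁, …, x_m⟩ → ⨁_i L²(N) ⊗ L²(N)`. -/
noncomputable def gradGraph : Submodule ℂ (E × PiLp 2 (fun _ : Fin m => F)) :=
  Submodule.span ℂ (Set.range fun w => (Λ (mono x w), WithLp.toLp 2 (fun i => fdq Λ t x i w)))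

/-- `T` is (the graph of) a closed version of the gradient `(∂₁, …, ∂_m)`: it is a closed linear
operator that extends `(∂₁, …, ∂_m)` on polynomials and is contained in the column of the closures
of the operators `∂_i`. -/
structure IsClosedGradient (T : Submodule ℂ (E × PiLp 2 (fun _ : Fin m => F))) : Prop where
  closed : IsClosed (T : Set (E × PiLp 2 (fun _ : Fin m => F)))
  extends_grad : gradGraph Λ t x ≤ T
  le_closures : ∀ ξ α, (ξ, α) ∈ T → ∀ i, (ξ, α i) ∈ (fdqGraph Λ t x i).topologicalClosure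

/-- `sup {‖φ_s(y) - y‖₂ : y ∈ N, ‖y‖ ≤ 1}`. -/
noncomputable def unifDist (N : VonNeumannAlgebra K) (φ : ℝ≥0 → E →L[ℂ] E) (s : ℝ≥0) : ℝ :=
  ⨆ y : {y : K →L[ℂ] K // y ∈ N ∧ ‖y‖ ≤ 1}, ‖φ s (Λ y) - Λ y‖

/-- `φ_s` converges to the identity uniformly on the unit ball of `N`, as `s → 0+`. -/
def ConvergesUniformly (N : VonNeumannAlgebra K) (φ : ℝ≥0 → E →L[ℂ] E) : Prop :=
  Tendsto (unifDist Λ N φ) (𝓝[>] 0) (𝓝 0)

end vN

section semigroup

variable {E : Type v} [NormedAddCommGroup E] [InnerProductSpace ℂ E] [CompleteSpace E]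
variable {G : Type w} [NormedAddCommGroup G] [InnerProductSpace ℂ G]

omit [CompleteSpace E] in
/-- The graph of the operator `T* T`. -/
def lapGraph (T : Submodule ℂ (E × G)) : Set (E × E) :=
  {p | ∃ α : G, (p.1, α) ∈ T ∧ (α, p.2) ∈ T.adjoint}

/-- `φ` is the semigroup `exp(-s Δ)`: the strongly continuous one-parameter semigroup of self-adjoint
contractions whose generator is `-Δ`. -/
structure IsSemigroupOf (Δ : Set (E × E)) (φ : ℝ≥0 → E →L[ℂ] E) : Prop where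
  zero : φ 0 = 1
  add : ∀ s t, φ (s + t) = φ s * φ t
  norm_le : ∀ t, ‖φ t‖ ≤ 1
  selfAdjoint : ∀ t, IsSelfAdjoint (φ t)
  cont : ∀ ξ, Tendsto (fun t => φ t ξ) (𝓝 0) (𝓝 ξ)
  gen : ∀ ξ ζ, (ξ, ζ) ∈ Δ ↔
    Tendsto (fun t : ℝ≥0 => (t : ℝ)⁻¹ • (ξ - φ t ξ)) (𝓝[>] 0) (𝓝 ζ)

end semigroup

end Pool.Agent.H768R2.FD
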