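import Pool.Agent.H768R2.FD.Transport

set_option autoImplicit false

open scoped InnerProductSpace TensorProduct Topology NNReal
open Filter

namespace Pool.Agent.H768R2.FD

universe u v w

variable {K : Type u} [NormedAddCommGroup K] [InnerProductSpace ℂ K] [CompleteSpace K]

theorem vnGen_le {M : VonNeumannAlgebra K} {ι : Type*} {x : ι → (K →L[ℂ] K)}
    (hx : ∀ i, x i ∈ M) {a : K →L[ℂ] K} (ha : a ∈ vnGen (Set.range x)) : a ∈ M := by
  have h1 : a ∈ StarSubalgebra.centralizer ℂ (StarSubalgebra.centralizer ℂ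
      (Set.range x) : Set (K →L[ℂ] K)) := ha
  rw [StarSubalgebra.mem_centralizer_iff] at h1
  have h2 : a ∈ Set.centralizer (Set.centralizer (M : Set (K →L[ℂ] K))) := by
    rw [Set.mem_centralizer_iff]
    intro g hg
    refine (h1 g ?_).1
    show g ∈ StarSubalgebra.centralizer ℂ (Set.range x)
    rw [StarSubalgebra.mem_centralizer_iff]
    rintro _ ⟨i, rfl⟩
    exact ⟨hg _ (hx i), hg _ (star_mem (hx i))⟩
  rw [VonNeumannAlgebra.centralizer_centralizer] at h2
  exact h2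

theorem mem_vnGen {ι : Type*} (x : ι → (K →L[ℂ] K)) (i : ι) : x i ∈ vnGen (Set.range x) := by
  show x i ∈ StarSubalgebra.centralizer ℂ (StarSubalgebra.centralizer ℂ
      (Set.range x) : Set (K →L[ℂ] K))
  rw [StarSubalgebra.mem_centralizer_iff]
  intro g hg
  have h1 : ∀ g ∈ StarSubalgebra.centralizer ℂ (Set.range x), g * x i = x i * g := by
    intro g hg
    rw [StarSubalgebra.mem_centralizer_iff] at hg
    exact (hg _ ⟨i, rfl⟩).1.symm
  exact ⟨h1 g hg, h1 _ (star_mem hg)⟩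

/-- the trace of `M` as a trace on a von Neumann subalgebra `N` -/
noncomputable def toTrace {M N : VonNeumannAlgebra K} {τ : (K →L[ℂ] K) → ℂ}
    (hτ : IsTraceState M τ) (hN : ∀ a ∈ N, a ∈ M) : FQ.TraceState N where
  toFun a := τ (a : K →L[ℂ] K)
  one := hτ.one
  tracial a b := hτ.tracial _ (hN _ a.2) _ (hN _ b.2)
  faithful a h := Subtype.ext (hτ.faithful _ (hN _ a.2) h)
  normal := by
    obtain ⟨ξ, hξ, h⟩ := hτ.normal
    exact ⟨ξ, hξ, fun a => h _ (hN _ a.2)⟩

/-- A model of `L²(N, τ)` exists. -/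
theorem exists_isL2 {M N : VonNeumannAlgebra K} {τ : (K →L[ℂ] K) → ℂ}
    (hτ : IsTraceState M τ) (hN : ∀ a ∈ N, a ∈ M) :
    ∃ (E : Type u) (_ : NormedAddCommGroup E) (_ : InnerProductSpace ℂ E) (_ : CompleteSpace E)
      (Λ : (K →L[ℂ] K) → E), IsL2 N τ Λ := by
  classical
  let σ := toTrace hτ hN
  let Λ : (K →L[ℂ] K) → FQ.L2 σ := fun a => if h : a ∈ N then FQ.hat σ ⟨a, h⟩ else 0
  have hΛ : ∀ a (h : a ∈ N), Λ a = FQ.hat σ ⟨a, h⟩ := fun a h => dif_pos h
  refine ⟨FQ.L2 σ, inferInstance, inferInstance, inferInstance, Λ, ⟨?_, ?_, ?_, ?_⟩⟩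
  · intro a ha b hb
    rw [hΛ _ ha, hΛ _ hb, hΛ _ (add_mem ha hb), ← FQ.hat_add]
    rfl
  · intro c a ha
    have h1 : c • a ∈ N := N.toStarSubalgebra.smul_mem (show a ∈ N.toStarSubalgebra from ha) c
    rw [hΛ _ ha, hΛ _ h1, ← FQ.hat_smul]
    rfl
  · intro a ha b hb
    rw [hΛ _ ha, hΛ _ hb, FQ.hat_inner]
    rfl
  · intro ξ ε hε
    obtain ⟨a, ha⟩ := (FQ.hat_dense σ).exists_dist_lt ξ hε
    refine ⟨a.1, a.2, ?_⟩
    rw [hΛ _ a.2, ← dist_eq_norm]
    exact ha

/-- A model of the Hilbert space tensor square exists. -/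
theorem exists_isTensorSquare (E : Type u) [NormedAddCommGroup E] [InnerProductSpace ℂ E] :
    ∃ (F : Type u) (_ : NormedAddCommGroup F) (_ : InnerProductSpace ℂ F) (_ : CompleteSpace F)
      (t : E → E → F), IsTensorSquare t := by
  refine ⟨UniformSpace.Completion (E ⊗[ℂ] E), inferInstance, inferInstance, inferInstance,
    fun ξ η => ((ξ ⊗ₜ[ℂ] η : E ⊗[ℂ] E) : UniformSpace.Completion (E ⊗[ℂ] E)),
    ⟨?_, ?_, ?_, ?_, ?_, ?_⟩⟩
  · intro ξ ξ' η
    rw [TensorProduct.add_tmul, UniformSpace.Completion.coe_add]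
  · intro ξ η η'
    rw [TensorProduct.tmul_add, UniformSpace.Completion.coe_add]
  · intro c ξ η
    rw [← TensorProduct.smul_tmul', UniformSpace.Completion.coe_smul]
  · intro c ξ η
    rw [TensorProduct.tmul_smul, UniformSpace.Completion.coe_smul]
  · intro ξ η ξ' η'
    rw [UniformSpace.Completion.inner_coe, TensorProduct.inner_tmul]
  · rw [← Submodule.dense_iff_topologicalClosure_eq_top]
    have h1 : DenseRange (fun z : E ⊗[ℂ] E => (z : UniformSpace.Completion (E ⊗[ℂ] E))) :=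
      UniformSpace.Completion.denseRange_coe
    refine Dense.mono ?_ h1
    rintro _ ⟨z, rfl⟩
    show (z : UniformSpace.Completion (E ⊗[ℂ] E)) ∈ Submodule.span ℂ _
    induction z using TensorProduct.induction_on with
    | zero =>
      rw [UniformSpace.Completion.coe_zero]
      exact Submodule.zero_mem _
    | tmul ξ η => exact Submodule.subset_span ⟨ξ, η, rfl⟩
    | add z y hz hy =>
      rw [UniformSpace.Completion.coe_add]
      exact Submodule.add_mem _ hz hy

variable {E : Type v} [NormedAddCommGroup E] [InnerProductSpace ℂ E] [CompleteSpace E]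
variable {F : Type w} [NormedAddCommGroup F] [InnerProductSpace ℂ F] [CompleteSpace F]

theorem exists_U {M N : VonNeumannAlgebra K} {τ : (K →L[ℂ] K) → ℂ}
    (hτ : IsTraceState M τ) (hN : ∀ a ∈ N, a ∈ M) {Λ : (K →L[ℂ] K) → E} (hΛ : IsL2 N τ Λ) :
    ∃ U : FQ.L2 (toTrace hτ hN) ≃ₗᵢ[ℂ] E,
      ∀ a : FQ.Elt N, U (FQ.hat (toTrace hτ hN) a) = Λ (a : K →L[ℂ] K) := by
  refine exists_unitary (FQ.hat (toTrace hτ hN)) (fun a : FQ.Elt N => Λ (a : K →L[ℂ] K))
    (fun a b => ?_) ?_ ?_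
  · rw [FQ.hat_inner]
    exact (hΛ.inner _ a.2 _ b.2).symm
  · rw [← Submodule.dense_iff_topologicalClosure_eq_top]
    exact (FQ.hat_dense (toTrace hτ hN)).mono Submodule.subset_span
  · rw [← Submodule.dense_iff_topologicalClosure_eq_top]
    have h1 : DenseRange (fun a : FQ.Elt N => Λ (a : K →L[ℂ] K)) := by
      rw [Metric.denseRange_iff]
      intro ξ ε hε
      obtain ⟨a, ha, h⟩ := hΛ.dense ξ ε hε
      exact ⟨⟨a, ha⟩, by rw [dist_eq_norm]; exact h⟩
    exact Dense.mono Submodule.subset_span h1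

omit [CompleteSpace E] in
theorem exists_V {N : VonNeumannAlgebra K} (σ : FQ.TraceState N) (U : FQ.L2 σ ≃ₗᵢ[ℂ] E)
    {t : E → E → F} (ht : IsTensorSquare t) :
    ∃ V : FQ.L2T σ ≃ₗᵢ[ℂ] F, ∀ ξ η, V (FQ.tens σ ξ η) = t (U ξ) (U η) := by
  obtain ⟨V, hV⟩ := exists_unitary (fun p : FQ.L2 σ × FQ.L2 σ => FQ.tens σ p.1 p.2)
    (fun p : FQ.L2 σ × FQ.L2 σ => t (U p.1) (U p.2)) (fun a b => by
      rw [FQ.tens_inner, ht.inner, U.inner_map_map, U.inner_map_map]) (by
      rw [← Submodule.dense_iff_topologicalClosure_eq_top]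
      have h1 : DenseRange (fun z : FQ.L2 σ ⊗[ℂ] FQ.L2 σ => (z : FQ.L2T σ)) :=
        UniformSpace.Completion.denseRange_coe
      refine Dense.mono ?_ h1
      rintro _ ⟨z, rfl⟩
      show (z : FQ.L2T σ) ∈ Submodule.span ℂ _
      induction z using TensorProduct.induction_on with
      | zero =>
        rw [UniformSpace.Completion.coe_zero]
        exact Submodule.zero_mem _
      | tmul ξ η => exact Submodule.subset_span ⟨(ξ, η), rfl⟩
      | add z y hz hy =>
        rw [UniformSpace.Completion.coe_add]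
        exact Submodule.add_mem _ hz hy) (by
      have h1 : Set.range (fun p : FQ.L2 σ × FQ.L2 σ => t (U p.1) (U p.2)) =
          {z | ∃ ξ η, z = t ξ η} := by
        ext z
        constructor
        · rintro ⟨p, rfl⟩
          exact ⟨_, _, rfl⟩
        · rintro ⟨ξ, η, rfl⟩
          exact ⟨(U.symm ξ, U.symm η), by simp⟩
      rw [h1]
      exact ht.dense)
  exact ⟨V, fun ξ η => hV (ξ, η)⟩

end Pool.Agent.H768R2.FD
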