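import Mathlib

set_option autoImplicit false

open scoped InnerProductSpace Topology

namespace Pool.Agent.H768R2.FD

universe u v w

/-- Two total families with the same Gram matrix are unitarily equivalent. -/
theorem exists_unitary {D : Type u} {E₁ : Type v} {E₂ : Type w}
    [NormedAddCommGroup E₁] [InnerProductSpace ℂ E₁] [CompleteSpace E₁]
    [NormedAddCommGroup E₂] [InnerProductSpace ℂ E₂] [CompleteSpace E₂]
    (f : D → E₁) (g : D → E₂) (h : ∀ a b, ⟪f a, f b⟫_ℂ = ⟪g a, g b⟫_ℂ)
    (hf : (Submodule.span ℂ (Set.range f)).topologicalClosure = ⊤)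
    (hg : (Submodule.span ℂ (Set.range g)).topologicalClosure = ⊤) :
    ∃ U : E₁ ≃ₗᵢ[ℂ] E₂, ∀ a, U (f a) = g a := by
  have hin : ∀ c d : D →₀ ℂ,
      ⟪Finsupp.linearCombination ℂ f c, Finsupp.linearCombination ℂ f d⟫_ℂ =
        ⟪Finsupp.linearCombination ℂ g c, Finsupp.linearCombination ℂ g d⟫_ℂ := by
    intro c d
    simp only [Finsupp.linearCombination_apply, Finsupp.sum, sum_inner, inner_sum,
      inner_smul_left, inner_smul_right, h]
  have hn : ∀ c : D →₀ ℂ,
      ‖Finsupp.linearCombination ℂ g c‖ = ‖Finsupp.linearCombination ℂ f c‖ := by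
    intro c
    have h1 := hin c c
    rw [inner_self_eq_norm_sq_to_K, inner_self_eq_norm_sq_to_K] at h1
    have h2 : ‖Finsupp.linearCombination ℂ f c‖ ^ 2 = ‖Finsupp.linearCombination ℂ g c‖ ^ 2 := by
      exact_mod_cast h1
    exact ((pow_left_inj₀ (norm_nonneg _) (norm_nonneg _) two_ne_zero).1 h2).symm
  have hd1 : DenseRange (Finsupp.linearCombination ℂ f) := by
    have h1 : Dense ((LinearMap.range (Finsupp.linearCombination ℂ f) : Submodule ℂ E₁) :
        Set E₁) := by
      rw [Submodule.dense_iff_topologicalClosure_eq_top, Finsupp.range_linearCombination]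
      exact hf
    exact h1
  have hd2 : DenseRange (Finsupp.linearCombination ℂ g) := by
    have h1 : Dense ((LinearMap.range (Finsupp.linearCombination ℂ g) : Submodule ℂ E₂) :
        Set E₂) := by
      rw [Submodule.dense_iff_topologicalClosure_eq_top, Finsupp.range_linearCombination]
      exact hg
    exact h1
  refine ⟨(LinearEquiv.refl ℂ (D →₀ ℂ)).extendOfIsometry (Finsupp.linearCombination ℂ f)
    (Finsupp.linearCombination ℂ g) hd1 hd2 hn, fun a => ?_⟩
  have h1 := (LinearEquiv.refl ℂ (D →₀ ℂ)).extendOfIsometry_eq (Finsupp.linearCombination ℂ f)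
    (Finsupp.linearCombination ℂ g) hd1 hd2 hn (Finsupp.single a 1)
  simpa using h1

end Pool.Agent.H768R2.FD
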