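import Pool.Agent.H768R2.FD.Defs
import Pool.Agent.H768R2.FD.Unitary
import Pool.Agent.H768R2.FQ.Main

set_option autoImplicit false

open scoped InnerProductSpace Topology NNReal
open Filter

namespace Pool.Agent.H768R2.FD

universe u v w

section semi

variable {E₁ : Type v} [NormedAddCommGroup E₁] [InnerProductSpace ℂ E₁] [CompleteSpace E₁]
variable {E₂ : Type w} [NormedAddCommGroup E₂] [InnerProductSpace ℂ E₂] [CompleteSpace E₂]

omit [CompleteSpace E₁] [CompleteSpace E₂] in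
/-- conjugation of a family of operators by a unitary -/
noncomputable def conj (U : E₁ ≃ₗᵢ[ℂ] E₂) (φ : ℝ≥0 → E₂ →L[ℂ] E₂) (s : ℝ≥0) : E₁ →L[ℂ] E₁ :=
  (U.symm.toContinuousLinearEquiv : E₂ →L[ℂ] E₁) ∘L φ s ∘L
    (U.toContinuousLinearEquiv : E₁ →L[ℂ] E₂)

omit [CompleteSpace E₁] [CompleteSpace E₂] in
theorem conj_apply (U : E₁ ≃ₗᵢ[ℂ] E₂) (φ : ℝ≥0 → E₂ →L[ℂ] E₂) (s : ℝ≥0) (ξ : E₁) :
    conj U φ s ξ = U.symm (φ s (U ξ)) := rfl

theorem isSemigroupOf_conj (U : E₁ ≃ₗᵢ[ℂ] E₂) {Δ₁ : Set (E₁ × E₁)} {Δ₂ : Set (E₂ × E₂)}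
    (h : ∀ ξ ζ, (ξ, ζ) ∈ Δ₁ ↔ (U ξ, U ζ) ∈ Δ₂) {φ : ℝ≥0 → E₂ →L[ℂ] E₂}
    (hφ : IsSemigroupOf Δ₂ φ) : IsSemigroupOf Δ₁ (conj U φ) where
  zero := by
    ext ξ
    rw [conj_apply, hφ.zero]
    exact U.symm_apply_apply ξ
  add s t := by
    ext ξ
    rw [conj_apply, hφ.add]
    show _ = conj U φ s (conj U φ t ξ)
    rw [conj_apply, conj_apply, U.apply_symm_apply]
    rfl
  norm_le t := by
    refine ContinuousLinearMap.opNorm_le_bound _ zero_le_one (fun ξ => ?_)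
    rw [conj_apply, U.symm.norm_map, one_mul, ← U.norm_map ξ]
    have h1 := (φ t).le_opNorm (U ξ)
    have h2 := mul_le_mul_of_nonneg_right (hφ.norm_le t) (norm_nonneg (U ξ))
    linarith
  selfAdjoint t := by
    have h1 := (ContinuousLinearMap.isSelfAdjoint_iff_isSymmetric (A := φ t)).1 (hφ.selfAdjoint t)
    rw [ContinuousLinearMap.isSelfAdjoint_iff_isSymmetric]
    intro ξ η
    show ⟪conj U φ t ξ, η⟫_ℂ = ⟪ξ, conj U φ t η⟫_ℂ
    rw [conj_apply, conj_apply, ← U.inner_map_map, ← U.inner_map_map, U.apply_symm_apply,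
      U.apply_symm_apply]
    exact h1 _ _
  cont ξ := by
    have h1 := (U.symm.continuous.tendsto (U ξ)).comp (hφ.cont (U ξ))
    rw [U.symm_apply_apply] at h1
    exact h1
  gen ξ ζ := by
    rw [h, hφ.gen]
    constructor
    · intro h1
      have h2 := (U.symm.continuous.tendsto (U ζ)).comp h1
      rw [U.symm_apply_apply] at h2
      refine h2.congr (fun t => ?_)
      show U.symm ((t : ℝ)⁻¹ • (U ξ - φ t (U ξ))) = (t : ℝ)⁻¹ • (ξ - conj U φ t ξ)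
      rw [conj_apply, ← Complex.coe_smul, ← Complex.coe_smul, map_smul, map_sub,
        U.symm_apply_apply]
    · intro h1
      have h2 := (U.continuous.tendsto ζ).comp h1
      refine h2.congr (fun t => ?_)
      show U ((t : ℝ)⁻¹ • (ξ - conj U φ t ξ)) = (t : ℝ)⁻¹ • (U ξ - φ t (U ξ))
      rw [conj_apply, ← Complex.coe_smul, ← Complex.coe_smul, map_smul, map_sub,
        U.apply_symm_apply]

theorem toFQ {E : Type u} [NormedAddCommGroup E] [InnerProductSpace ℂ E] [CompleteSpace E]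
    {Δ : Set (E × E)} {φ : ℝ≥0 → E →L[ℂ] E} (h : IsSemigroupOf Δ φ) : FQ.IsSemigroupOf Δ φ :=
  ⟨h.zero, h.add, h.norm_le, h.selfAdjoint, h.cont, h.gen⟩

theorem ofFQ {E : Type u} [NormedAddCommGroup E] [InnerProductSpace ℂ E] [CompleteSpace E]
    {Δ : Set (E × E)} {φ : ℝ≥0 → E →L[ℂ] E} (h : FQ.IsSemigroupOf Δ φ) : IsSemigroupOf Δ φ :=
  ⟨h.zero, h.add, h.norm_le, h.selfAdjoint, h.cont, h.gen⟩

end semi

section lap

variable {E₁ : Type*} [NormedAddCommGroup E₁] [InnerProductSpace ℂ E₁]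
variable {E₂ : Type*} [NormedAddCommGroup E₂] [InnerProductSpace ℂ E₂]
variable {G₁ : Type*} [NormedAddCommGroup G₁] [InnerProductSpace ℂ G₁]
variable {G₂ : Type*} [NormedAddCommGroup G₂] [InnerProductSpace ℂ G₂]
variable (U : E₁ ≃ₗᵢ[ℂ] E₂) (W : G₁ ≃ₗᵢ[ℂ] G₂)

/-- pull back of a graph along unitaries -/
noncomputable def pull (T : Submodule ℂ (E₂ × G₂)) : Submodule ℂ (E₁ × G₁) :=
  T.comap ((U.toLinearEquiv : E₁ →ₗ[ℂ] E₂).prodMap (W.toLinearEquiv : G₁ →ₗ[ℂ] G₂))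

theorem mem_pull (T : Submodule ℂ (E₂ × G₂)) (ξ : E₁) (α : G₁) :
    (ξ, α) ∈ pull U W T ↔ (U ξ, W α) ∈ T := Iff.rfl

theorem mem_pull_adjoint (T : Submodule ℂ (E₂ × G₂)) (ξ : E₁) (α : G₁) :
    (α, ξ) ∈ (pull U W T).adjoint ↔ (W α, U ξ) ∈ T.adjoint := by
  rw [Submodule.mem_adjoint_iff, Submodule.mem_adjoint_iff]
  constructor
  · intro h a b hab
    have h1 := h (U.symm a) (W.symm b) (by
      rw [mem_pull, U.apply_symm_apply, W.apply_symm_apply]; exact hab)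
    rw [← W.inner_map_map, ← U.inner_map_map, U.apply_symm_apply, W.apply_symm_apply] at h1
    exact h1
  · intro h a b hab
    have h1 := h (U a) (W b) hab
    rw [W.inner_map_map, U.inner_map_map] at h1
    exact h1

theorem isClosed_pull (T : Submodule ℂ (E₂ × G₂)) (h : IsClosed (T : Set (E₂ × G₂))) :
    IsClosed (pull U W T : Set (E₁ × G₁)) := by
  have h1 : Continuous (fun p : E₁ × G₁ => (U p.1, W p.2)) := by fun_prop
  exact h.preimage h1

theorem mem_lapGraph_pull (T : Submodule ℂ (E₂ × G₂)) (ξ ζ : E₁) :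
    (ξ, ζ) ∈ lapGraph (pull U W T) ↔ (U ξ, U ζ) ∈ lapGraph T := by
  constructor
  · rintro ⟨α, h1, h2⟩
    exact ⟨W α, h1, (mem_pull_adjoint U W T ζ α).1 h2⟩
  · rintro ⟨β, h1, h2⟩
    refine ⟨W.symm β, ?_, ?_⟩
    · show (U ξ, W (W.symm β)) ∈ T
      rw [W.apply_symm_apply]; exact h1
    · rw [mem_pull_adjoint, W.apply_symm_apply]; exact h2

end lap

section graph

variable {K : Type u} [NormedAddCommGroup K] [InnerProductSpace ℂ K] [CompleteSpace K]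
variable {E : Type v} [NormedAddCommGroup E] [InnerProductSpace ℂ E] [CompleteSpace E]
variable {F : Type w} [NormedAddCommGroup F] [InnerProductSpace ℂ F] [CompleteSpace F]
variable {N : VonNeumannAlgebra K} (σ : FQ.TraceState N)
variable (U : FQ.L2 σ ≃ₗᵢ[ℂ] E) (V : FQ.L2T σ ≃ₗᵢ[ℂ] F)
variable {Λ : (K →L[ℂ] K) → E} {t : E → E → F}
variable {m : ℕ} (x : Fin m → FQ.Elt N)

/-- the tuple as operators on `K` -/
abbrev coeT (x : Fin m → FQ.Elt N) : Fin m → (K →L[ℂ] K) := fun i => (x i : K →L[ℂ] K)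

theorem coe_mono (w : List (Fin m)) :
    ((FQ.mono x w : FQ.Elt N) : K →L[ℂ] K) = mono (coeT x) w := by
  induction w with
  | nil => rfl
  | cons j w ih =>
    rw [FQ.mono_cons]
    show (x j : K →L[ℂ] K) * ((FQ.mono x w : FQ.Elt N) : K →L[ℂ] K) = mono (coeT x) (j :: w)
    rw [ih, mono, mono, List.map_cons, List.prod_cons]

omit [CompleteSpace E] [CompleteSpace F] in
theorem map_fdq (hU : ∀ a : FQ.Elt N, U (FQ.hat σ a) = Λ (a : K →L[ℂ] K))
    (hV : ∀ ξ η, V (FQ.tens σ ξ η) = t (U ξ) (U η)) (i : Fin m) (w : List (Fin m)) :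
    V (FQ.fdq σ x i w) = fdq Λ t (coeT x) i w := by
  rw [FQ.fdq, fdq, map_sum]
  refine Finset.sum_congr rfl (fun k _ => ?_)
  split_ifs with h
  · rw [hV, hU, hU, coe_mono, coe_mono]
  · exact map_zero V

omit [CompleteSpace E] [CompleteSpace F] in
theorem fdqGraph_iff (hU : ∀ a : FQ.Elt N, U (FQ.hat σ a) = Λ (a : K →L[ℂ] K))
    (hV : ∀ ξ η, V (FQ.tens σ ξ η) = t (U ξ) (U η)) (i : Fin m) :
    FQ.fdqGraph σ x i = pull U V (fdqGraph Λ t (coeT x) i) := by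
  apply le_antisymm
  · refine Submodule.span_le.2 ?_
    rintro _ ⟨w, rfl⟩
    show (U (FQ.hat σ (FQ.mono x w)), V (FQ.fdq σ x i w)) ∈ fdqGraph Λ t (coeT x) i
    rw [hU, coe_mono, map_fdq σ U V x hU hV]
    exact Submodule.subset_span ⟨w, rfl⟩
  · have h1 : fdqGraph Λ t (coeT x) i ≤ pull U.symm V.symm (FQ.fdqGraph σ x i) := by
      refine Submodule.span_le.2 ?_
      rintro _ ⟨w, rfl⟩
      show (U.symm (Λ (mono (coeT x) w)), V.symm (fdq Λ t (coeT x) i w)) ∈ FQ.fdqGraph σ x i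
      rw [← coe_mono, ← hU, ← map_fdq σ U V x hU hV, U.symm_apply_apply, V.symm_apply_apply]
      exact Submodule.subset_span ⟨w, rfl⟩
    rintro ⟨ξ, α⟩ h
    have h2 := h1 h
    have h3 : (U.symm (U ξ), V.symm (V α)) ∈ FQ.fdqGraph σ x i := h2
    rwa [U.symm_apply_apply, V.symm_apply_apply] at h3

theorem closure_pull {E₁ E₂ G₁ G₂ : Type*} [NormedAddCommGroup E₁] [InnerProductSpace ℂ E₁]
    [NormedAddCommGroup E₂] [InnerProductSpace ℂ E₂] [NormedAddCommGroup G₁]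
    [InnerProductSpace ℂ G₁] [NormedAddCommGroup G₂] [InnerProductSpace ℂ G₂]
    (U : E₁ ≃ₗᵢ[ℂ] E₂) (W : G₁ ≃ₗᵢ[ℂ] G₂) (T : Submodule ℂ (E₂ × G₂)) (ξ : E₁) (α : G₁)
    (h : (U ξ, W α) ∈ T.topologicalClosure) : (ξ, α) ∈ (pull U W T).topologicalClosure := by
  have hc : Continuous (fun p : E₂ × G₂ => (U.symm p.1, W.symm p.2)) := by fun_prop
  have h1 : (U.symm (U ξ), W.symm (W α)) ∈ closure (pull U W T : Set (E₁ × G₁)) := by
    refine map_mem_closure (f := fun p : E₂ × G₂ => (U.symm p.1, W.symm p.2)) hc h ?_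
    rintro ⟨a, b⟩ hab
    show (U (U.symm a), W (W.symm b)) ∈ T
    rw [U.apply_symm_apply, W.apply_symm_apply]
    exact hab
  rwa [U.symm_apply_apply, W.symm_apply_apply] at h1

omit [CompleteSpace E] [CompleteSpace F] in
theorem fisher_iff (hU : ∀ a : FQ.Elt N, U (FQ.hat σ a) = Λ (a : K →L[ℂ] K))
    (hV : ∀ ξ η, V (FQ.tens σ ξ η) = t (U ξ) (U η)) (hF : FiniteFisher Λ t (coeT x)) :
    FQ.FiniteFisher σ x := by
  intro i
  obtain ⟨J, hJ⟩ := hF i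
  refine ⟨U.symm J, ?_⟩
  rw [fdqGraph_iff σ U V x hU hV, mem_pull_adjoint, hV, hU, U.apply_symm_apply]
  exact hJ

omit [CompleteSpace E] [CompleteSpace F] in
theorem closedGradient (hU : ∀ a : FQ.Elt N, U (FQ.hat σ a) = Λ (a : K →L[ℂ] K))
    (hV : ∀ ξ η, V (FQ.tens σ ξ η) = t (U ξ) (U η))
    (T : Submodule ℂ (E × PiLp 2 (fun _ : Fin m => F))) (hT : IsClosedGradient Λ t (coeT x) T) :
    FQ.IsClosedGradient σ x
      (pull U (LinearIsometryEquiv.piLpCongrRight 2 (fun _ : Fin m => V)) T) where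
  closed := isClosed_pull _ _ _ hT.closed
  extends_grad := by
    refine Submodule.span_le.2 ?_
    rintro _ ⟨w, rfl⟩
    have h1 : (Λ (mono (coeT x) w), WithLp.toLp 2 (fun i => fdq Λ t (coeT x) i w)) ∈ T :=
      hT.extends_grad (Submodule.subset_span ⟨w, rfl⟩)
    rw [← coe_mono, ← hU] at h1
    show (U (FQ.hat σ (FQ.mono x w)), (LinearIsometryEquiv.piLpCongrRight 2
      (fun _ : Fin m => V)) (WithLp.toLp 2 (fun i => FQ.fdq σ x i w))) ∈ T
    have h2 : (LinearIsometryEquiv.piLpCongrRight 2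
      (fun _ : Fin m => V)) (WithLp.toLp 2 (fun i => FQ.fdq σ x i w)) =
        WithLp.toLp 2 (fun i => fdq Λ t (coeT x) i w) := by
      ext i
      exact map_fdq σ U V x hU hV i w
    rw [h2]
    exact h1
  le_closures := by
    intro ξ α h i
    rw [fdqGraph_iff σ U V x hU hV]
    exact closure_pull U V _ _ _ (hT.le_closures _ _ h i)

omit [CompleteSpace E] in
theorem unifDist_eq (hU : ∀ a : FQ.Elt N, U (FQ.hat σ a) = Λ (a : K →L[ℂ] K))
    (φ : ℝ≥0 → E →L[ℂ] E) (s : ℝ≥0) :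
    FQ.unifDist σ (conj U φ) s = unifDist Λ N φ s := by
  let e : {y : FQ.Elt N // ‖(y : K →L[ℂ] K)‖ ≤ 1} ≃ {y : K →L[ℂ] K // y ∈ N ∧ ‖y‖ ≤ 1} :=
    { toFun := fun y => ⟨(y.1 : K →L[ℂ] K), y.1.2, y.2⟩
      invFun := fun y => ⟨⟨y.1, y.2.1⟩, y.2.2⟩
      left_inv := fun y => rfl
      right_inv := fun y => rfl }
  refine e.iSup_congr (fun y => ?_)
  show ‖φ s (Λ (y.1 : K →L[ℂ] K)) - Λ (y.1 : K →L[ℂ] K)‖ =
    ‖conj U φ s (FQ.hat σ y.1) - FQ.hat σ y.1‖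
  rw [conj_apply, ← U.norm_map, map_sub, U.apply_symm_apply, hU]

end graph

end Pool.Agent.H768R2.FD
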